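import Pool.Agent.TH900.OM.PB

/-!
# A prime whose ninth power does not divide `q`

`P9 c q` is the product of the primes `p = 1 mod 24`, `p > c log q`, with `p^9 ∣ q`. For large `q` there is
a prime `n = 1 mod 24` with `c log q < n ≤ (c + ε) log q + 8 log (P9 c q)` and `n^9 ∤ q`.
-/

open Filter Topology

namespace Pool.Agent.T6.H23.ZM

noncomputable section

open Pool.Agent.TH900.QM (tt24 PA24')

open Classical in
/-- the primes `p = 1 mod 24` with `p > c log q` and `p^9 ∣ q` -/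
def S9 (c : ℝ) (q : ℕ) : Finset ℕ :=
  q.primeFactors.filter (fun p : ℕ => p % 24 = 1 ∧ c * Real.log q < p ∧ p ^ 9 ∣ q)

/-- their product -/
def P9 (c : ℝ) (q : ℕ) : ℕ := ∏ p ∈ S9 c q, p

lemma mem_S9 {c : ℝ} {q p : ℕ} (hq : 0 < q) : p ∈ S9 c q ↔
    p.Prime ∧ p % 24 = 1 ∧ c * Real.log q < p ∧ p ^ 9 ∣ q := by
  unfold S9
  rw [Finset.mem_filter, Nat.mem_primeFactors]
  constructor
  · rintro ⟨⟨h1, h2, h3⟩, h4⟩
    exact ⟨h1, h4⟩
  · rintro ⟨h1, h2, h3, h4⟩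
    exact ⟨⟨h1, (dvd_pow_self p (by norm_num)).trans h4, hq.ne'⟩, h2, h3, h4⟩

lemma P9_pos {c : ℝ} {q : ℕ} (hq : 0 < q) : 0 < P9 c q :=
  Finset.prod_pos fun p hp => ((mem_S9 hq).1 hp).1.pos

lemma P9_dvd {c : ℝ} {q m : ℕ} (hq : 0 < q) (h : ∀ p ∈ S9 c q, p ∣ m) : P9 c q ∣ m := by
  unfold P9
  have h1 : (∏ p ∈ S9 c q, ((p : ℤ))) ∣ (m : ℤ) := by
    apply Finset.prod_dvd_of_coprime
    · intro p hp r hr hpr
      have h2 : Nat.Coprime p r :=
        (Nat.coprime_primes ((mem_S9 hq).1 hp).1 ((mem_S9 hq).1 hr).1).2 hpr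
      exact (Nat.isCoprime_iff_coprime.2 h2)
    · intro p hp
      exact_mod_cast h p hp
  rw [← Int.natCast_dvd_natCast, Nat.cast_prod]
  exact h1

lemma P9_pow_dvd {c : ℝ} {q : ℕ} (hq : 0 < q) : P9 c q ^ 9 ∣ q := by
  unfold P9
  rw [← Finset.prod_pow]
  have h1 : (∏ p ∈ S9 c q, ((p : ℤ)) ^ 9) ∣ (q : ℤ) := by
    apply Finset.prod_dvd_of_coprime
    · intro p hp r hr hpr
      have h2 : Nat.Coprime p r :=
        (Nat.coprime_primes ((mem_S9 hq).1 hp).1 ((mem_S9 hq).1 hr).1).2 hpr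
      exact (Nat.isCoprime_iff_coprime.2 h2).pow
    · intro p hp
      exact_mod_cast ((mem_S9 hq).1 hp).2.2.2
  exact_mod_cast h1

lemma log_P9 {c : ℝ} {q : ℕ} (hq : 0 < q) : 9 * Real.log (P9 c q) ≤ Real.log q := by
  have h1 : P9 c q ^ 9 ≤ q := Nat.le_of_dvd hq (P9_pow_dvd hq)
  have h2 : (0 : ℝ) < P9 c q := by exact_mod_cast P9_pos hq
  have h3 : ((P9 c q : ℝ)) ^ 9 ≤ q := by exact_mod_cast h1
  calc 9 * Real.log (P9 c q) = Real.log ((P9 c q : ℝ) ^ 9) := by rw [Real.log_pow]; norm_num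
    _ ≤ _ := Real.log_le_log (by positivity) h3

lemma log_P9_nonneg {c : ℝ} {q : ℕ} : 0 ≤ Real.log (P9 c q) := Real.log_natCast_nonneg _

/-- a prime `n = 1 mod 24` slightly above `c log q` with `n^9 ∤ q` -/
theorem prime_near (c : ℝ) (hc : 0 < c) (ε : ℝ) (hε : 0 < ε) :
    ∃ L0 : ℝ, 1 ≤ L0 ∧ ∀ q : ℕ, 0 < q → L0 ≤ Real.log q →
    ∃ p : ℕ, p.Prime ∧ p % 24 = 1 ∧ c * Real.log q < p ∧
      (p : ℝ) ≤ (c + ε) * Real.log q + 8 * Real.log (P9 c q) ∧ ¬ p ^ 9 ∣ q := by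
  set η : ℝ := ε / (32 * (c + ε + 1)) with hη
  have hη0 : 0 < η := by rw [hη]; positivity
  obtain ⟨T, hT1, hT⟩ := PA24' η hη0
  refine ⟨max 1 (max ((T + 1) / c) (4 / ε)), le_max_left _ _, fun q hq hL => ?_⟩
  set L : ℝ := Real.log q with hLdef
  have hL1 : 1 ≤ L := (le_max_left _ _).trans hL
  have hLT : (T : ℝ) + 1 ≤ c * L := by
    have h1 : ((T : ℝ) + 1) / c ≤ L := (le_max_left _ _).trans ((le_max_right _ _).trans hL)
    rw [div_le_iff₀ hc] at h1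
    linarith
  have hLj : 4 ≤ ε * L := by
    have h1 : 4 / ε ≤ L := (le_max_right _ _).trans ((le_max_right _ _).trans hL)
    rw [div_le_iff₀ hε] at h1
    linarith
  have hP := log_P9 (c := c) hq
  have hP0 := log_P9_nonneg (c := c) (q := q)
  set P : ℝ := Real.log (P9 c q) with hPdef
  by_contra hcon
  push Not at hcon
  set c1 : ℝ := (c + ε) * L + 8 * P with hc1
  have hc10 : 0 < c1 := by rw [hc1]; positivity
  have hc1le : c1 ≤ (c + ε + 1) * L := by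
    rw [hc1]
    nlinarith
  set m1 : ℕ := ⌊c * L⌋₊ with hm1
  set m2 : ℕ := ⌊c1⌋₊ with hm2
  have a1 : (m1 : ℝ) ≤ c * L := Nat.floor_le (by positivity)
  have a1' : c * L < m1 + 1 := Nat.lt_floor_add_one _
  have a2 : (m2 : ℝ) ≤ c1 := Nat.floor_le (by positivity)
  have a2' : c1 < m2 + 1 := Nat.lt_floor_add_one _
  have hT1' : T ≤ m1 := by
    have : (T : ℝ) ≤ m1 := by linarith
    exact_mod_cast this
  have hcc1 : c * L ≤ c1 := by
    rw [hc1]
    nlinarith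
  have hm12 : m1 ≤ m2 := Nat.floor_le_floor hcc1
  set S : Finset ℕ := (Finset.Ioc m1 m2).filter (fun p => p.Prime ∧ p % 24 = 1) with hS
  have hmem : ∀ p ∈ S, p ∈ S9 c q := by
    intro p hp
    rw [hS, Finset.mem_filter, Finset.mem_Ioc] at hp
    have h1 : c * L < p := (Nat.floor_lt (by positivity)).1 hp.1.1
    have h2 : (p : ℝ) ≤ c1 := (Nat.le_floor_iff (by positivity)).1 hp.1.2
    exact (mem_S9 hq).2 ⟨hp.2.1, hp.2.2, h1, hcon p hp.2.1 hp.2.2 h1 h2⟩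
  have hlog : ∑ p ∈ S, Real.log p ≤ P := by
    have h1 : P = ∑ p ∈ S9 c q, Real.log p := by
      rw [hPdef, P9, Nat.cast_prod, Real.log_prod]
      intro p hp
      have := ((mem_S9 hq).1 hp).1.pos
      positivity
    rw [h1]
    exact Finset.sum_le_sum_of_subset_of_nonneg hmem fun p _ _ => Real.log_natCast_nonneg p
  have hsum : ∑ p ∈ S, Real.log p = ∑ k ∈ Finset.Ioc 0 m2, tt24 k - ∑ k ∈ Finset.Ioc 0 m1, tt24 k := by
    have h1 : ∑ k ∈ Finset.Ioc 0 m2, tt24 k = ∑ k ∈ Finset.Ioc 0 m1, tt24 k + ∑ k ∈ Finset.Ioc m1 m2, tt24 k := by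
      rw [← Finset.sum_union]
      · rw [Finset.Ioc_union_Ioc_eq_Ioc (Nat.zero_le _) hm12]
      · rw [Finset.disjoint_left]
        intro k hk hk2
        rw [Finset.mem_Ioc] at hk hk2
        omega
    rw [h1, add_sub_cancel_left, hS, Finset.sum_filter]
    rfl
  have h1 := abs_le.1 (hT m1 hT1')
  have h2 := abs_le.1 (hT m2 (hT1'.trans hm12))
  rw [hsum] at hlog
  have h4 : η * (m1 : ℝ) ≤ η * c1 := mul_le_mul_of_nonneg_left (a1.trans hcc1) hη0.le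
  have h5 : η * (m2 : ℝ) ≤ η * c1 := mul_le_mul_of_nonneg_left a2 hη0.le
  have h6 : η * c1 ≤ ε * L / 32 := by
    calc η * c1 ≤ η * ((c + ε + 1) * L) := mul_le_mul_of_nonneg_left hc1le hη0.le
      _ = ε * L / 32 := by
        rw [hη]
        field_simp
  have h7 : c1 = (c + ε) * L + 8 * P := hc1
  linarith [h1.2, h2.1]

end

end Pool.Agent.T6.H23.ZM
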