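import Mathlib

/-!
# Periodic blocks of digits give good rational approximations
-/

namespace Pool.Agent.T6.H23.ZM

/-- the `i`-th digit of `x` after the point in base `b` -/
noncomputable def digit (b : ℕ) (x : ℝ) (i : ℕ) : ℤ := ⌊x * (b : ℝ) ^ i⌋ % (b : ℤ)

lemma floor_succ {b : ℕ} (hb : 2 ≤ b) (x : ℝ) (i : ℕ) :
    ⌊x * (b : ℝ) ^ (i + 1)⌋ = b * ⌊x * (b : ℝ) ^ i⌋ + digit b x (i + 1) := by
  have hb0 : (0 : ℝ) < b := by positivity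
  have h1 : ⌊x * (b : ℝ) ^ i⌋ = ⌊x * (b : ℝ) ^ (i + 1)⌋ / (b : ℤ) := by
    have h2 : x * (b : ℝ) ^ i = x * (b : ℝ) ^ (i + 1) / (b : ℝ) := by
      rw [pow_succ]
      field_simp
    rw [h2, Int.floor_div_natCast]
  rw [h1]
  unfold digit
  exact (Int.mul_ediv_add_emod _ _).symm

/-- the integer formed by the digits `k+1, …, k+s` -/
noncomputable def blk (b : ℕ) (x : ℝ) (k s : ℕ) : ℤ := ⌊x * (b : ℝ) ^ (k + s)⌋ - b ^ s * ⌊x * (b : ℝ) ^ k⌋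

lemma blk_zero (b : ℕ) (x : ℝ) (k : ℕ) : blk b x k 0 = 0 := by simp [blk]

lemma blk_succ {b : ℕ} (hb : 2 ≤ b) (x : ℝ) (k s : ℕ) :
    blk b x k (s + 1) = b * blk b x k s + digit b x (k + s + 1) := by
  unfold blk
  rw [← add_assoc, floor_succ hb]
  ring

lemma blk_periodic {b : ℕ} (hb : 2 ≤ b) (x : ℝ) (k m : ℕ) (s : ℕ)
    (h : ∀ i, k < i → i ≤ k + s → digit b x (i + m) = digit b x i) :
    blk b x (k + m) s = blk b x k s := by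
  induction s with
  | zero => rw [blk_zero, blk_zero]
  | succ s ih =>
    rw [blk_succ hb, blk_succ hb, ih (fun i h1 h2 => h i h1 (by omega))]
    have h3 := h (k + s + 1) (by omega) (by omega)
    rw [show k + m + s + 1 = k + s + 1 + m by omega, h3]

/-- a block of digits with period `m` at the places `k + 1, …, k + r` -/
theorem approx_of_periodic {b : ℕ} (hb : 2 ≤ b) (x : ℝ) (k m r : ℕ) (hm : 1 ≤ m) (hr : m ≤ r)
    (h : ∀ i, k < i → i + m ≤ k + r → digit b x (i + m) = digit b x i) :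
    ∃ a : ℤ, |x - (a : ℝ) / ((b ^ k * (b ^ m - 1) : ℕ) : ℝ)| ≤
      1 / (((b ^ k * (b ^ m - 1) : ℕ) : ℝ) * (b : ℝ) ^ (r - m)) := by
  obtain ⟨s, rfl⟩ : ∃ s, r = m + s := ⟨r - m, by omega⟩
  have hb0 : (0 : ℝ) < b := by positivity
  have hbR : (2 : ℝ) ≤ b := by exact_mod_cast hb
  have hp := blk_periodic hb x k m s (fun i h1 h2 => h i h1 (by omega))
  unfold blk at hp
  set A := ⌊x * (b : ℝ) ^ k⌋ with hA
  set A1 := ⌊x * (b : ℝ) ^ (k + m)⌋ with hA1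
  set F := ⌊x * (b : ℝ) ^ (k + s)⌋ with hF
  set F1 := ⌊x * (b : ℝ) ^ (k + m + s)⌋ with hF1
  -- F1 - b^s A1 = F - b^s A
  refine ⟨A1 - A, ?_⟩
  have f1 : (F : ℝ) ≤ x * (b : ℝ) ^ (k + s) := Int.floor_le _
  have f2 : x * (b : ℝ) ^ (k + s) < F + 1 := Int.lt_floor_add_one _
  have f3 : (F1 : ℝ) ≤ x * (b : ℝ) ^ (k + m + s) := Int.floor_le _
  have f4 : x * (b : ℝ) ^ (k + m + s) < F1 + 1 := Int.lt_floor_add_one _
  have hpR : (F1 : ℝ) - (b : ℝ) ^ s * A1 = F - (b : ℝ) ^ s * A := by exact_mod_cast hp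
  have hbm : (2 : ℝ) ≤ (b : ℝ) ^ m := hbR.trans (le_self_pow₀ (by linarith) (by omega))
  have hcast : ((b ^ k * (b ^ m - 1) : ℕ) : ℝ) = (b : ℝ) ^ k * ((b : ℝ) ^ m - 1) := by
    rw [Nat.cast_mul, Nat.cast_sub (Nat.one_le_pow _ _ (by omega))]
    push_cast
    ring
  have hD : 0 < (b : ℝ) ^ k * ((b : ℝ) ^ m - 1) := mul_pos (by positivity) (by linarith)
  have hs : 0 < (b : ℝ) ^ s := by positivity
  -- key estimate
  have key : |x * ((b : ℝ) ^ k * ((b : ℝ) ^ m - 1)) - (A1 - A)| * (b : ℝ) ^ s ≤ 1 := by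
    have e1 : (x * ((b : ℝ) ^ k * ((b : ℝ) ^ m - 1)) - (A1 - A)) * (b : ℝ) ^ s =
        (x * (b : ℝ) ^ (k + m + s) - F1) - (x * (b : ℝ) ^ (k + s) - F) := by
      have e2 : (b : ℝ) ^ s * A1 = F1 - F + (b : ℝ) ^ s * A := by linarith
      calc (x * ((b : ℝ) ^ k * ((b : ℝ) ^ m - 1)) - (A1 - A)) * (b : ℝ) ^ s =
          x * (b : ℝ) ^ (k + m + s) - x * (b : ℝ) ^ (k + s) - (b : ℝ) ^ s * A1 + (b : ℝ) ^ s * A := by
            rw [pow_add, pow_add, pow_add]; ring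
        _ = _ := by rw [e2]; ring
    have e3 : |x * ((b : ℝ) ^ k * ((b : ℝ) ^ m - 1)) - (A1 - A)| * (b : ℝ) ^ s =
        |(x * ((b : ℝ) ^ k * ((b : ℝ) ^ m - 1)) - (A1 - A)) * (b : ℝ) ^ s| := by
      rw [abs_mul, abs_of_pos hs]
    rw [e3, e1, abs_le]
    constructor <;> linarith
  have e4 : x - ((A1 - A : ℤ) : ℝ) / ((b : ℝ) ^ k * ((b : ℝ) ^ m - 1)) =
      (x * ((b : ℝ) ^ k * ((b : ℝ) ^ m - 1)) - (A1 - A)) / ((b : ℝ) ^ k * ((b : ℝ) ^ m - 1)) := by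
    push_cast
    rw [eq_div_iff hD.ne', sub_mul, div_mul_cancel₀ _ hD.ne']
  rw [hcast, e4, abs_div, abs_of_pos hD, show m + s - m = s by omega,
    div_le_div_iff₀ hD (by positivity), one_mul]
  calc |x * ((b : ℝ) ^ k * ((b : ℝ) ^ m - 1)) - (A1 - A)| * ((b : ℝ) ^ k * ((b : ℝ) ^ m - 1) * (b : ℝ) ^ s) =
      (b : ℝ) ^ k * ((b : ℝ) ^ m - 1) *
        (|x * ((b : ℝ) ^ k * ((b : ℝ) ^ m - 1)) - (A1 - A)| * (b : ℝ) ^ s) := by ring
    _ ≤ (b : ℝ) ^ k * ((b : ℝ) ^ m - 1) * 1 := mul_le_mul_of_nonneg_left key hD.le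
    _ = _ := mul_one _

end Pool.Agent.T6.H23.ZM
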