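import Pool.Agent.T6.H23.ZM.Core
import Pool.Agent.T6.H23.ZM.Dig

/-!
# The refined simultaneous measure for `ζ(9), …, ζ(21)`
-/

open Filter Topology

namespace Pool.Agent.T6.H23.ZM

open Pool.Agent.TH900.YM Pool.Agent.H337R2

noncomputable section

/-- the odd numbers from `9` to `21` -/
def T7 : Finset ℕ := {9, 11, 13, 15, 17, 19, 21}

/-- the measure for large `q` -/
theorem large : ∃ q0 : ℕ, 1 ≤ q0 ∧ ∀ q : ℕ, q0 ≤ q → ∀ a : ℕ → ℤ, ∃ j ∈ T7,
    1 / ((q : ℝ) ^ 274 * (P9 (10 / 31) q : ℝ) ^ 6792) < |zr j - (a j : ℝ) / q| := by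
  obtain ⟨n0, hcore⟩ := core
  obtain ⟨L0, hL01, hL0⟩ := prime_near (10 / 31) (by norm_num) (1 / 10000) (by norm_num)
  obtain ⟨q0, hq0⟩ := exists_nat_gt (Real.exp (L0 + 4 * n0))
  refine ⟨q0 + 1, by omega, fun q hq a => ?_⟩
  have hqR : Real.exp (L0 + 4 * n0) < q := hq0.trans_le (by exact_mod_cast (by omega : q0 ≤ q))
  have hqr : (0 : ℝ) < q := (Real.exp_pos _).trans hqR
  have hqp : 0 < q := by exact_mod_cast hqr
  have hLbig : L0 + 4 * n0 < Real.log q := (Real.lt_log_iff_exp_lt hqr).2 hqR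
  have hn0c : (0 : ℝ) ≤ n0 := Nat.cast_nonneg _
  obtain ⟨n, hnp, hn24, hn1, hn2, hnb⟩ := hL0 q hqp (by linarith)
  obtain ⟨i, hi, h⟩ := hcore n (by
    have : (n0 : ℝ) ≤ n := by linarith
    exact_mod_cast this) hnp hn24 q hqp (by linarith) hnb (fun i => a (i + 6))
  refine ⟨i + 6, ?_, lt_of_le_of_lt ?_ h⟩
  · simp only [I7, Finset.mem_insert, Finset.mem_singleton] at hi
    simp only [T7, Finset.mem_insert, Finset.mem_singleton]
    omega
  · have hP : (0 : ℝ) < P9 (10 / 31) q := by exact_mod_cast P9_pos hqp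
    have h1 : (q : ℝ) ^ 274 * (P9 (10 / 31) q : ℝ) ^ 6792 =
        Real.exp (274 * Real.log q + 6792 * Real.log (P9 (10 / 31) q)) := by
      rw [Real.exp_add, show 274 * Real.log q = ((274 : ℕ) : ℝ) * Real.log q by push_cast; rfl,
        show 6792 * Real.log (P9 (10 / 31) q) = ((6792 : ℕ) : ℝ) * Real.log (P9 (10 / 31) q) by push_cast; rfl,
        ← Real.log_pow, ← Real.log_pow, Real.exp_log (by positivity), Real.exp_log (by positivity)]
    rw [h1, one_div, ← Real.exp_neg]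
    apply Real.exp_le_exp.2
    have hlog : 0 ≤ Real.log q := by linarith
    nlinarith

/-- the measure for all `q` -/
theorem all : ∃ c : ℝ, 0 < c ∧ c ≤ 1 ∧ ∀ (a : ℕ → ℤ) (q : ℕ), 0 < q → ∃ j ∈ T7,
    c / ((q : ℝ) ^ 274 * (P9 (10 / 31) q : ℝ) ^ 6792) ≤ |zr j - (a j : ℝ) / q| := by
  obtain ⟨q0, hq01, hlarge⟩ := large
  obtain ⟨c1, hc1, hm⟩ := Pool.Agent.TH900.YM.measure
  have hq0R : (0 : ℝ) < q0 := by exact_mod_cast hq01
  refine ⟨min 1 (c1 / (q0 : ℝ) ^ 1038), by positivity, min_le_left _ _, fun a q hq => ?_⟩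
  have hqR : (1 : ℝ) ≤ q := by exact_mod_cast hq
  have hP : (1 : ℝ) ≤ P9 (10 / 31) q := by exact_mod_cast P9_pos hq
  have hden : 1 ≤ (q : ℝ) ^ 274 * (P9 (10 / 31) q : ℝ) ^ 6792 :=
    one_le_mul_of_one_le_of_one_le (one_le_pow₀ hqR) (one_le_pow₀ hP)
  by_cases h : q0 ≤ q
  · obtain ⟨j, hj, h1⟩ := hlarge q h a
    refine ⟨j, hj, le_trans ?_ h1.le⟩
    exact div_le_div_of_nonneg_right (min_le_left _ _) (by positivity)
  · obtain ⟨j, hj, h1⟩ := hm a q hq
    refine ⟨j, hj, le_trans ?_ h1⟩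
    calc min 1 (c1 / (q0 : ℝ) ^ 1038) / ((q : ℝ) ^ 274 * (P9 (10 / 31) q : ℝ) ^ 6792) ≤
        min 1 (c1 / (q0 : ℝ) ^ 1038) := div_le_self (by positivity) hden
      _ ≤ c1 / (q0 : ℝ) ^ 1038 := min_le_right _ _
      _ ≤ c1 / (q : ℝ) ^ 1038 := by
        apply div_le_div_of_nonneg_left hc1.le (by positivity)
        exact pow_le_pow_left₀ (by positivity) (by exact_mod_cast (by omega : q ≤ q0)) _

lemma P9_le_root {c : ℝ} {q : ℕ} (hq : 0 < q) : (P9 c q : ℝ) ^ 6792 ≤ (q : ℝ) ^ 755 := by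
  have h1 : P9 c q ^ 9 ≤ q := Nat.le_of_dvd hq (P9_pow_dvd hq)
  have h2 : (1 : ℝ) ≤ P9 c q := by exact_mod_cast P9_pos hq
  have h3 : ((P9 c q : ℝ)) ^ 9 ≤ q := by exact_mod_cast h1
  calc (P9 c q : ℝ) ^ 6792 ≤ (P9 c q : ℝ) ^ (9 * 755) := pow_le_pow_right₀ h2 (by norm_num)
    _ = ((P9 c q : ℝ) ^ 9) ^ 755 := pow_mul _ _ _
    _ ≤ _ := pow_le_pow_left₀ (by positivity) h3 _

/-- the primes of `P9 c (u^k v)` divide `u` or their ninth powers divide `v` -/
lemma P9_two {c : ℝ} {u v : ℕ} (k : ℕ) (hu : 0 < u) (hv : 0 < v) :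
    (P9 c (u ^ k * v) : ℝ) ^ 6792 ≤ (u : ℝ) ^ 6792 * (v : ℝ) ^ 755 := by
  have hq : 0 < u ^ k * v := by positivity
  -- the part dividing `v`
  set S := S9 c (u ^ k * v) with hS
  have hSp : ∀ p ∈ S, p.Prime ∧ p ^ 9 ∣ u ^ k * v := fun p hp =>
    ⟨((mem_S9 hq).1 hp).1, ((mem_S9 hq).1 hp).2.2.2⟩
  have hsplit : P9 c (u ^ k * v) = (∏ p ∈ S.filter (fun p => p ∣ u), p) *
      ∏ p ∈ S.filter (fun p => ¬ p ∣ u), p := by
    unfold P9
    rw [← hS, Finset.prod_filter_mul_prod_filter_not]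
  set A := ∏ p ∈ S.filter (fun p => p ∣ u), p with hA
  set B := ∏ p ∈ S.filter (fun p => ¬ p ∣ u), p with hB
  have hAu : A ∣ u := by
    have h1 : (∏ p ∈ S.filter (fun p => p ∣ u), ((p : ℤ))) ∣ (u : ℤ) := by
      apply Finset.prod_dvd_of_coprime
      · intro p hp r hr hpr
        rw [Finset.mem_coe, Finset.mem_filter] at hp hr
        exact Nat.isCoprime_iff_coprime.2 ((Nat.coprime_primes (hSp p hp.1).1 (hSp r hr.1).1).2 hpr)
      · intro p hp
        rw [Finset.mem_filter] at hp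
        exact_mod_cast hp.2
    rw [← Int.natCast_dvd_natCast, hA, Nat.cast_prod]
    exact h1
  have hBv : B ^ 9 ∣ v := by
    have h1 : (∏ p ∈ S.filter (fun p => ¬ p ∣ u), ((p : ℤ)) ^ 9) ∣ (v : ℤ) := by
      apply Finset.prod_dvd_of_coprime
      · intro p hp r hr hpr
        rw [Finset.mem_coe, Finset.mem_filter] at hp hr
        exact (Nat.isCoprime_iff_coprime.2 ((Nat.coprime_primes (hSp p hp.1).1 (hSp r hr.1).1).2 hpr)).pow
      · intro p hp
        rw [Finset.mem_filter] at hp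
        have h2 : Nat.Coprime (p ^ 9) (u ^ k) :=
          (((hSp p hp.1).1.coprime_iff_not_dvd.2 hp.2).pow 9 k)
        have h3 : p ^ 9 ∣ v := h2.dvd_of_dvd_mul_left (hSp p hp.1).2
        exact_mod_cast h3
    rw [← Int.natCast_dvd_natCast, hB, ← Finset.prod_pow, Nat.cast_prod]
    push_cast
    exact h1
  have hA1 : (A : ℝ) ≤ u := by exact_mod_cast Nat.le_of_dvd hu hAu
  have hB9 : (B : ℝ) ^ 9 ≤ v := by exact_mod_cast Nat.le_of_dvd hv hBv
  have hB0 : 0 < B := Finset.prod_pos fun p hp => (hSp p (Finset.mem_filter.1 hp).1).1.pos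
  have hB1 : (1 : ℝ) ≤ B := by exact_mod_cast hB0
  rw [hsplit, Nat.cast_mul, mul_pow]
  apply mul_le_mul (pow_le_pow_left₀ (by positivity) hA1 _) _ (by positivity) (by positivity)
  calc (B : ℝ) ^ 6792 ≤ (B : ℝ) ^ (9 * 755) := pow_le_pow_right₀ hB1 (by norm_num)
    _ = ((B : ℝ) ^ 9) ^ 755 := pow_mul _ _ _
    _ ≤ _ := pow_le_pow_left₀ (by positivity) hB9 _

/-- for `m ≥ 61` the number `P9` of `m!` is `1` -/
lemma P9_factorial {m : ℕ} (hm : 61 ≤ m) : P9 (10 / 31) m.factorial = 1 := by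
  have h0 : S9 (10 / 31) m.factorial = ∅ := by
    rw [Finset.eq_empty_iff_forall_notMem]
    intro p hp
    obtain ⟨h1, h2, h3, h4⟩ := (mem_S9 (Nat.factorial_pos m)).1 hp
    have h5 : p ≤ m := (h1.dvd_factorial).1 ((dvd_pow_self p (by norm_num)).trans h4)
    have h6 : (p : ℝ) ≤ m := by exact_mod_cast h5
    have hmR : (61 : ℝ) ≤ m := by exact_mod_cast hm
    -- `m! ≥ (m/e)^m`
    have h7 : Real.log ((m : ℝ) ^ m / Real.exp m) ≤ Real.log (m.factorial : ℝ) := by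
      apply Real.log_le_log (by positivity)
      have h8 : ((m : ℝ)) ^ m / (m.factorial : ℝ) ≤ Real.exp m := by
        have := Real.pow_div_factorial_le_exp (m : ℝ) (by positivity) m
        exact this
      rw [div_le_iff₀ (by positivity)] at h8
      rw [div_le_iff₀ (Real.exp_pos _)]
      linarith
    rw [Real.log_div (by positivity) (Real.exp_pos _).ne', Real.log_pow, Real.log_exp] at h7
    have h9 : 4.1 ≤ Real.log m := by
      rw [Real.le_log_iff_exp_le (by positivity)]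
      have h10 : Real.exp 4.1 ≤ 61 := by
        have h11 := Real.exp_one_lt_d9
        have h12 : Real.exp 4.1 = Real.exp 1 ^ 4 * Real.exp 0.1 := by
          rw [← Real.exp_nat_mul, ← Real.exp_add]
          norm_num
        have h13 : Real.exp 0.1 ≤ 1.112 := by
          have h14 := Real.exp_bound_div_one_sub_of_interval (x := 0.1) (by norm_num) (by norm_num)
          refine h14.trans ?_
          norm_num
        have h15 : Real.exp 1 ^ 4 ≤ 54.6 := by
          calc Real.exp 1 ^ 4 ≤ 2.7182818286 ^ 4 := pow_le_pow_left₀ (Real.exp_pos _).le h11.le 4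
            _ ≤ 54.6 := by norm_num
        rw [h12]
        calc Real.exp 1 ^ 4 * Real.exp 0.1 ≤ 54.6 * 1.112 :=
              mul_le_mul h15 h13 (Real.exp_pos _).le (by norm_num)
          _ ≤ 61 := by norm_num
      linarith
    nlinarith
  unfold P9
  rw [h0, Finset.prod_empty]

/-- the refined measure with its consequences -/
theorem final : ∃ c : ℝ, 0 < c ∧
    (∀ (a : ℕ → ℤ) (q : ℕ), 0 < q → ∃ j ∈ T7,
      c / ((q : ℝ) ^ 274 * (P9 (10 / 31) q : ℝ) ^ 6792) ≤ |zr j - (a j : ℝ) / q|) ∧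
    (∀ (a : ℕ → ℤ) (q : ℕ), 0 < q → ∃ j ∈ T7, c / (q : ℝ) ^ 1029 ≤ |zr j - (a j : ℝ) / q|) ∧
    (∀ (a : ℕ → ℤ) (u v k : ℕ), 0 < u → 0 < v → ∃ j ∈ T7,
      c / ((u : ℝ) ^ (274 * k + 6792) * (v : ℝ) ^ 1029) ≤ |zr j - (a j : ℝ) / (u ^ k * v : ℕ)|) ∧
    (∀ (a : ℕ → ℤ) (m : ℕ), ∃ j ∈ T7,
      c / (m.factorial : ℝ) ^ 274 ≤ |zr j - (a j : ℝ) / m.factorial|) ∧
    (∃ C : ℝ, ∀ b : ℕ, 2 ≤ b → ∀ k r m : ℕ, 1 ≤ m →
      (∀ j ∈ T7, ∀ i, k < i → i + m ≤ k + r → digit b (zr j) (i + m) = digit b (zr j) i) →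
      (r : ℝ) ≤ 273 * k + 1029 * m + C) := by
  obtain ⟨c, hc, hc1, h⟩ := all
  have h2 : ∀ (a : ℕ → ℤ) (u v k : ℕ), 0 < u → 0 < v → ∃ j ∈ T7,
      c / ((u : ℝ) ^ (274 * k + 6792) * (v : ℝ) ^ 1029) ≤ |zr j - (a j : ℝ) / (u ^ k * v : ℕ)| := by
    intro a u v k hu hv
    have hq : 0 < u ^ k * v := by positivity
    obtain ⟨j, hj, h1⟩ := h a _ hq
    refine ⟨j, hj, le_trans ?_ h1⟩
    have hP : (0 : ℝ) < P9 (10 / 31) (u ^ k * v) := by exact_mod_cast P9_pos hq
    have huR : (0 : ℝ) < u := by exact_mod_cast hu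
    have hvR : (0 : ℝ) < v := by exact_mod_cast hv
    apply div_le_div_of_nonneg_left hc.le (by positivity)
    have h3 := P9_two (c := 10 / 31) k hu hv
    calc (((u ^ k * v : ℕ) : ℝ)) ^ 274 * (P9 (10 / 31) (u ^ k * v) : ℝ) ^ 6792 ≤
        (((u ^ k * v : ℕ) : ℝ)) ^ 274 * ((u : ℝ) ^ 6792 * (v : ℝ) ^ 755) :=
          mul_le_mul_of_nonneg_left h3 (by positivity)
      _ = _ := by
        push_cast
        rw [mul_pow, ← pow_mul, pow_add, mul_comm k 274, show 1029 = 274 + 755 by norm_num, pow_add]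
        ring
  have hc61 : 0 < c / ((61).factorial : ℝ) ^ 6792 := by positivity
  have hle61 : c / ((61).factorial : ℝ) ^ 6792 ≤ c := by
    apply div_le_self hc.le
    exact one_le_pow₀ (by exact_mod_cast Nat.factorial_pos 61)
  refine ⟨c / ((61).factorial : ℝ) ^ 6792, hc61, ?_, ?_, ?_, ?_, ?_⟩
  · intro a q hq
    obtain ⟨j, hj, h1⟩ := h a q hq
    exact ⟨j, hj, (div_le_div_of_nonneg_right hle61 (by positivity)).trans h1⟩
  · intro a q hq
    obtain ⟨j, hj, h1⟩ := h2 a 1 q 1 one_pos hq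
    refine ⟨j, hj, ?_⟩
    simp only [Nat.cast_one, one_pow, one_mul] at h1
    exact (div_le_div_of_nonneg_right hle61 (by positivity)).trans h1
  · intro a u v k hu hv
    obtain ⟨j, hj, h1⟩ := h2 a u v k hu hv
    exact ⟨j, hj, (div_le_div_of_nonneg_right hle61 (by positivity)).trans h1⟩
  · intro a m
    obtain ⟨j, hj, h1⟩ := h a m.factorial (Nat.factorial_pos m)
    refine ⟨j, hj, le_trans ?_ h1⟩
    have hmf : (0 : ℝ) < m.factorial := by exact_mod_cast Nat.factorial_pos m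
    by_cases hm : 61 ≤ m
    · rw [P9_factorial hm, Nat.cast_one, one_pow, mul_one]
      exact div_le_div_of_nonneg_right hle61 (by positivity)
    · have hP : (0 : ℝ) < P9 (10 / 31) m.factorial := by exact_mod_cast P9_pos (Nat.factorial_pos m)
      have h3 : (P9 (10 / 31) m.factorial : ℝ) ≤ ((61).factorial : ℝ) := by
        have h4 : P9 (10 / 31) m.factorial ∣ m.factorial := by
          apply P9_dvd (Nat.factorial_pos m)
          intro p hp
          exact (dvd_pow_self p (by norm_num)).trans ((mem_S9 (Nat.factorial_pos m)).1 hp).2.2.2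
        have h5 := Nat.le_of_dvd (Nat.factorial_pos m) h4
        exact_mod_cast h5.trans (Nat.factorial_le (by omega))
      rw [div_div]
      apply div_le_div_of_nonneg_left hc.le (by positivity)
      rw [mul_comm]
      apply mul_le_mul_of_nonneg_right _ (by positivity)
      exact pow_le_pow_left₀ hP.le h3 _
  · refine ⟨6792 + Real.log (1 / c) / Real.log 2, fun b hb k r m hm hper => ?_⟩
    have hlog2 : 0 < Real.log 2 := Real.log_pos (by norm_num)
    have hlc : 0 ≤ Real.log (1 / c) := Real.log_nonneg (by rw [le_div_iff₀ hc]; linarith)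
    have hlc2 : 0 ≤ Real.log (1 / c) / Real.log 2 := by positivity
    by_cases hr : m ≤ r
    swap
    · have h1 : (r : ℝ) ≤ m := by exact_mod_cast (by omega : r ≤ m)
      have h3 : (0 : ℝ) ≤ m := Nat.cast_nonneg _
      have h4 : (0 : ℝ) ≤ k := Nat.cast_nonneg _
      linarith
    -- approximations
    have happ : ∀ j ∈ T7, ∃ a : ℤ, |zr j - (a : ℝ) / ((b ^ k * (b ^ m - 1) : ℕ) : ℝ)| ≤
        1 / (((b ^ k * (b ^ m - 1) : ℕ) : ℝ) * (b : ℝ) ^ (r - m)) := fun j hj =>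
      approx_of_periodic hb (zr j) k m r hm hr (hper j hj)
    choose! a ha using happ
    have hbm : 2 ≤ b ^ m := hb.trans (Nat.le_self_pow (by omega) b)
    obtain ⟨j, hj, h1⟩ := h2 a b (b ^ m - 1) k (by omega) (by omega)
    have h3 := h1.trans (ha j hj)
    have hbR : (2 : ℝ) ≤ b := by exact_mod_cast hb
    have hb0 : (0 : ℝ) < b := by linarith
    have hvR : (0 : ℝ) < ((b ^ m - 1 : ℕ) : ℝ) := by exact_mod_cast (by omega : 0 < b ^ m - 1)
    have hvle : ((b ^ m - 1 : ℕ) : ℝ) ≤ (b : ℝ) ^ m := by exact_mod_cast Nat.sub_le _ _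
    rw [Nat.cast_mul, Nat.cast_pow, div_le_div_iff₀ (by positivity) (by positivity), one_mul] at h3
    -- cancel `b^k (b^m - 1)`
    have h4 : c * (b : ℝ) ^ (r - m) ≤ (b : ℝ) ^ (273 * k + 6792) * ((b ^ m - 1 : ℕ) : ℝ) ^ 1028 := by
      have h5 : 0 < (b : ℝ) ^ k * ((b ^ m - 1 : ℕ) : ℝ) := by positivity
      refine le_of_mul_le_mul_left ?_ h5
      calc (b : ℝ) ^ k * ((b ^ m - 1 : ℕ) : ℝ) * (c * (b : ℝ) ^ (r - m)) =
          c * ((b : ℝ) ^ k * ((b ^ m - 1 : ℕ) : ℝ) * (b : ℝ) ^ (r - m)) := by ring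
        _ ≤ _ := h3
        _ = (b : ℝ) ^ k * ((b ^ m - 1 : ℕ) : ℝ) *
            ((b : ℝ) ^ (273 * k + 6792) * ((b ^ m - 1 : ℕ) : ℝ) ^ 1028) := by
          rw [show 274 * k + 6792 = k + (273 * k + 6792) by ring, pow_add (b : ℝ) k,
            show 1029 = 1 + 1028 by norm_num, pow_add _ 1 1028, pow_one]
          ring
    have h5 : c * (b : ℝ) ^ (r - m) ≤ (b : ℝ) ^ (273 * k + 6792 + 1028 * m) := by
      refine h4.trans ?_
      rw [pow_add (b : ℝ) (273 * k + 6792)]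
      apply mul_le_mul_of_nonneg_left _ (by positivity)
      rw [mul_comm 1028 m, pow_mul]
      exact pow_le_pow_left₀ hvR.le hvle _
    have h6 := Real.log_le_log (by positivity) h5
    rw [Real.log_mul hc.ne' (by positivity), Real.log_pow, Real.log_pow, Nat.cast_sub hr] at h6
    have hlb : Real.log 2 ≤ Real.log b := Real.log_le_log (by norm_num) hbR
    have hlb0 : 0 < Real.log b := hlog2.trans_le hlb
    have h7 : Real.log c = - Real.log (1 / c) := by
      rw [one_div, Real.log_inv, neg_neg]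
    rw [h7] at h6
    push_cast at h6
    have h8 : ((r : ℝ) - m) * Real.log b ≤
        (273 * k + 6792 + 1028 * m + Real.log (1 / c) / Real.log 2) * Real.log b := by
      have h9 : Real.log (1 / c) ≤ Real.log (1 / c) / Real.log 2 * Real.log b := by
        calc Real.log (1 / c) = Real.log (1 / c) / Real.log 2 * Real.log 2 := by field_simp
          _ ≤ _ := mul_le_mul_of_nonneg_left hlb hlc2
      linarith
    have h10 := le_of_mul_le_mul_right h8 hlb0
    linarith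

end

end Pool.Agent.T6.H23.ZM
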